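import Pool.Agent.helper67.DL.SpecX

/-! # Project dl, module X12: the surface is connected -/

namespace Pool.Agent.DL

open Matrix Complex
open scoped ComplexOrder Manifold ContDiff

theorem X12_x0 : x0X ∈ gS 1 := by
  unfold gS x0X fv
  refine ⟨OnePoint.coe_ne_infty 1, ?_⟩
  show 0 < ((1 : ℂ) / 1).re
  norm_num

theorem X12 (h6 : X06_stmt) (h10 : X10_stmt) (h11 : X11_stmt) : X12_stmt := by
  intro ch hch
  have hG : ∀ c : ℂ, c ^ 4 = 1 → IsPreconnected (gS c) := by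
    intro c hc
    obtain ⟨h1, h2, -, -⟩ := hch.1 ⟨c, hc⟩
    have h3 : IsPreconnected ((ch (Sum.inl ⟨c, hc⟩)).symm '' (ch (Sum.inl ⟨c, hc⟩)).target) := by
      refine IsPreconnected.image ?_ _ (ch (Sum.inl ⟨c, hc⟩)).continuousOn_symm
      rw [h2]
      exact h10.2.2.1
    rwa [(ch (Sum.inl ⟨c, hc⟩)).symm_image_target_eq_source, h1] at h3
  have hE : ∀ d : ℂ, d ^ 8 = 1 → IsPreconnected (eS d) := by
    intro d hd
    obtain ⟨h1, h2, -, -⟩ := hch.2 ⟨d, hd⟩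
    have h3 : IsPreconnected ((ch (Sum.inr ⟨d, hd⟩)).symm '' (ch (Sum.inr ⟨d, hd⟩)).target) := by
      refine IsPreconnected.image ?_ _ (ch (Sum.inr ⟨d, hd⟩)).continuousOn_symm
      rw [h2]
      exact h10.2.2.2.1
    rwa [(ch (Sum.inr ⟨d, hd⟩)).symm_image_target_eq_source, h1] at h3
  have key : IsPreconnected (Set.univ : Set XT) := by
    refine isPreconnected_of_forall x0X fun y _ => ?_
    have hGE : ∀ d : ℂ, d ^ 8 = 1 → IsPreconnected (gS 1 ∪ eS d) := by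
      intro d hd
      exact (hG 1 (by norm_num)).union' (h11 1 d (by norm_num) hd) (hE d hd)
    rcases h6 y with ⟨c, hc, hy⟩ | ⟨d, hd, hy⟩
    · refine ⟨(gS 1 ∪ eS 1) ∪ gS c, Set.subset_univ _, Or.inl (Or.inl X12_x0), Or.inr hy, ?_⟩
      refine (hGE 1 (by norm_num)).union' ?_ (hG c hc)
      obtain ⟨z, hz1, hz2⟩ := h11 c 1 hc (by norm_num)
      exact ⟨z, Or.inr hz2, hz1⟩
    · exact ⟨gS 1 ∪ eS d, Set.subset_univ _, Or.inl X12_x0, Or.inr hy, hGE d hd⟩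
  exact { isPreconnected_univ := key, toNonempty := ⟨x0X⟩ }

end Pool.Agent.DL
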