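import Pool.Agent.helper67.DL.SpecX

/-! # Project dl, module X21: density -/

namespace Pool.Agent.DL

open Matrix Complex Filter
open scoped ComplexOrder Manifold ContDiff Topology

theorem X21_gen (e : OpenPartialHomeomorph XT ℂ) (p : XT) (hp : p ∈ e.source) (h0 : e p = 0)
    (S : Set XT) (hS : ∀ x ∈ e.target, x ≠ 0 → e.symm x ∈ S) : p ∈ closure S := by
  have h0t : (0 : ℂ) ∈ e.target := by
    rw [← h0]
    exact e.map_source hp
  have h1 : Tendsto e.symm (𝓝[≠] 0) (𝓝 p) := by
    have h2 := e.continuousAt_symm h0t
    have h3 : e.symm 0 = p := by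
      rw [← h0]
      exact e.left_inv hp
    unfold ContinuousAt at h2
    rw [h3] at h2
    exact h2.mono_left nhdsWithin_le_nhds
  refine mem_closure_of_tendsto h1 ?_
  have h4 : ∀ᶠ x in 𝓝[≠] (0 : ℂ), x ∈ e.target :=
    nhdsWithin_le_nhds (e.open_target.mem_nhds h0t)
  filter_upwards [h4, self_mem_nhdsWithin] with x hx hx'
  exact hS x hx hx'

theorem X21 : X21_stmt := by
  intro ch hch
  constructor
  · intro p
    by_cases hp : p ∈ uZ
    · exact subset_closure hp
    · have h1 : p.1.1 = OnePoint.infty := by
        by_contra h
        exact hp h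
      rcases p.2 with ⟨z, y, h2, h3⟩ | ⟨y, h2, h3⟩ | ⟨z, h2, h3⟩
      · rw [h2] at h1
        exact absurd h1 (OnePoint.coe_ne_infty z)
      · have hy : y ^ 2 = -1 := by linear_combination h3
        have hy0 : y ≠ 0 := by
          rintro rfl
          norm_num at hy
        have hc : y ^ 4 = 1 := by
          have : y ^ 4 = (y ^ 2) ^ 2 := by ring
          rw [this, hy]
          norm_num
        have hne : ¬ (y ^ 2 = 1) := by
          rw [hy]
          norm_num
        obtain ⟨hs, ht, hx, hi⟩ := hch.1 ⟨y, hc⟩
        have hps : p ∈ gS y := by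
          unfold gS
          refine ⟨?_, ?_⟩
          · rw [h2]
            exact OnePoint.coe_ne_infty y
          · rw [h2]
            show 0 < (y / y).re
            rw [div_self hy0]
            norm_num
        refine X21_gen (ch (Sum.inl ⟨y, hc⟩)) p (by rw [hs]; exact hps) ?_ uZ ?_
        · rw [hx p hps]
          unfold gx
          rw [if_neg hne]
          unfold fN
          rw [h2]
          rfl
        · intro x hxt hx0
          rw [ht] at hxt
          show ((ch (Sum.inl ⟨y, hc⟩)).symm x).1.1 ≠ OnePoint.infty
          rw [hi x hxt]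
          unfold gi ic
          rw [if_neg hne, if_neg hx0]
          exact OnePoint.coe_ne_infty _
      · rw [h2] at h1
        exact absurd h1 (OnePoint.coe_ne_infty z)
  · intro p
    by_cases hp : p ∈ uN
    · exact subset_closure hp
    · have h1 : p.1.1 = OnePoint.some 0 := by
        by_contra h
        exact hp h
      rcases p.2 with ⟨z, y, h2, h3⟩ | ⟨y, h2, h3⟩ | ⟨z, h2, h3⟩
      · rw [h2] at h1
        have hz : z = 0 := OnePoint.coe_injective h1
        subst hz
        have hy : y ^ 2 = 1 := by linear_combination h3
        have hy0 : y ≠ 0 := by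
          rintro rfl
          norm_num at hy
        have hc : y ^ 4 = 1 := by
          have : y ^ 4 = (y ^ 2) ^ 2 := by ring
          rw [this, hy]
          norm_num
        obtain ⟨hs, ht, hx, hi⟩ := hch.1 ⟨y, hc⟩
        have hps : p ∈ gS y := by
          unfold gS
          refine ⟨?_, ?_⟩
          · rw [h2]
            exact OnePoint.coe_ne_infty y
          · rw [h2]
            show 0 < (y / y).re
            rw [div_self hy0]
            norm_num
        refine X21_gen (ch (Sum.inl ⟨y, hc⟩)) p (by rw [hs]; exact hps) ?_ uN ?_
        · rw [hx p hps]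
          unfold gx
          rw [if_pos hy]
          unfold fZ
          rw [h2]
          rfl
        · intro x hxt hx0
          rw [ht] at hxt
          show ((ch (Sum.inl ⟨y, hc⟩)).symm x).1.1 ≠ OnePoint.some 0
          rw [hi x hxt]
          unfold gi
          rw [if_pos hy]
          exact fun h => hx0 (OnePoint.coe_injective h)
      · rw [h2] at h1
        exact absurd h1 (OnePoint.infty_ne_coe 0)
      · rw [h2] at h1
        have hz : z = 0 := OnePoint.coe_injective h1
        rw [hz] at h3
        norm_num at h3

end Pool.Agent.DL
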