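import Pool.Agent.helper67.DL.SpecX

/-! # Project dl, module X22: the chart at the fixed point -/

namespace Pool.Agent.DL

open Matrix Complex
open scoped ComplexOrder Manifold ContDiff

theorem X22 (h2 : X02_stmt) (h10 : X10_stmt) : X22_stmt := by
  classical
  intro ch hch e he
  obtain ⟨hs, ht, hx, hi⟩ := hch.1 ⟨1, by norm_num⟩
  rw [← he] at hs ht hx hi
  have hi' : ∀ x ∈ gT, (e.symm x).1 = (OnePoint.some x, OnePoint.some (r2 (mm (x ^ 4)))) := by
    intro x hx'
    rw [hi x hx']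
    unfold gi
    simp
  have hball : ∀ x : ℂ, ‖x‖ < 1 → x ∈ gT := h10.2.2.2.2.1
  have hfZ : ∀ x ∈ gT, fZ (e.symm x) = x := by
    intro x hx'
    unfold fZ
    rw [hi' x hx']
    rfl
  have hfY : ∀ x ∈ gT, fY (e.symm x) = r2 (mm (x ^ 4)) := by
    intro x hx'
    unfold fY
    rw [hi' x hx']
    rfl
  refine ⟨?_, ?_, ?_⟩
  · intro z hz
    rw [ht]
    rw [mem_ball_zero_iff] at hz
    exact hball z (by linarith)
  · intro z hz
    rw [mem_ball_zero_iff] at hz
    have hz1 : z ∈ gT := hball z (by linarith)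
    have hz2 := hz1
    unfold gT at hz2
    obtain ⟨hz3, hz4⟩ := hz2
    obtain ⟨h5, h6⟩ := h2.1 _ hz4
    have hne : (e.symm z).1.2 ≠ OnePoint.infty := by
      rw [hi' z hz1]
      exact OnePoint.coe_ne_infty _
    have hne0 : (e.symm z).1.2 ≠ OnePoint.some 0 := by
      rw [hi' z hz1]
      intro h7
      have h8 : r2 (mm (z ^ 4)) = 0 := OnePoint.coe_injective h7
      rw [h8] at h6
      simp at h6
    have hmem : e.symm z ∈ uZ := by
      unfold uZ
      show (e.symm z).1.1 ≠ OnePoint.infty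
      rw [hi' z hz1]
      exact OnePoint.coe_ne_infty _
    have hd : dd fZ e (e.symm z) = 1 := by
      unfold dd
      rw [e.right_inv (by rw [ht]; exact hz1)]
      have h9 : (fun w => fZ (e.symm w)) =ᶠ[nhds z] fun w => w := by
        have h10 : Metric.ball (0 : ℂ) 1 ∈ nhds z :=
          Metric.isOpen_ball.mem_nhds (by rw [mem_ball_zero_iff]; linarith)
        filter_upwards [h10] with w hw
        rw [mem_ball_zero_iff] at hw
        exact hfZ w (hball w hw)
      rw [h9.deriv_eq]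
      exact deriv_id z
    have hval : eta0 e (e.symm z) = 1 / ((1 + z ^ 4) * r2 (mm (z ^ 4))) := by
      unfold eta0
      rw [if_neg hne, if_neg hne0, hd, hfZ z hz1, hfY z hz1]
    have hnorm : ‖eta0 e (e.symm z)‖ ^ 2 = 1 / ‖1 - z ^ 8‖ := by
      rw [hval, ← norm_pow]
      have h11 : (1 / ((1 + z ^ 4) * r2 (mm (z ^ 4)))) ^ 2 = 1 / (1 - z ^ 8) := by
        rw [div_pow, mul_pow, h5, one_pow]
        congr 1
        unfold mm
        field_simp
        ring
      rw [h11, norm_div, norm_one]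
    have hz8 : ‖z ^ 8‖ ≤ 1 / 2 := by
      rw [norm_pow]
      calc ‖z‖ ^ 8 ≤ (1 / 2) ^ 8 := pow_le_pow_left₀ (norm_nonneg _) hz.le 8
        _ ≤ 1 / 2 := by norm_num
    have h12 : 1 / 2 ≤ ‖1 - z ^ 8‖ := by
      have := norm_sub_norm_le (1 : ℂ) (z ^ 8)
      rw [norm_one] at this
      linarith
    have h13 : ‖1 - z ^ 8‖ ≤ 2 := by
      have := norm_sub_le (1 : ℂ) (z ^ 8)
      rw [norm_one] at this
      linarith
    refine ⟨hmem, hfZ z hz1, ?_, ?_⟩
    · rw [hnorm]
      exact one_div_le_one_div_of_le (by linarith) h13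
    · rw [hnorm, div_le_iff₀ (by linarith)]
      linarith
  · apply Subtype.ext
    rw [hi' 0 (hball 0 (by simp))]
    unfold x0X mm r2
    simp

end Pool.Agent.DL
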